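import Mathlib
import Pool.Agent.Helper64.HypDefs
import Pool.Agent.Helper64.BergeExpProof

set_option autoImplicit false

namespace Pool.Agent.Results.MP_bca398_lc.BergeExp

open Pool.Agent.Helper64

/-- **Exponential blow-up of edge-by-edge dualization, for every order of the edges.**
For every prime power `q` and every `r ≥ 1` there is a hypergraph `H` with `q ^ 2` edges on
`r * q ^ 3` vertices, all of whose minimal transversals have at most `3` vertices (so that there are
at most `(r * q ^ 3) ^ 3` of them), such that every proper subfamily `H'` of `H` missing at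
most `a * (a + 1)` edges has at least `r ^ (q - a)` minimal transversals. -/
theorem result (q r : ℕ) (hq : IsPrimePow q) (hr : 1 ≤ r) :
    ∃ H : Finset (Finset (Fin (r * q ^ 3))),
      H.card = q ^ 2 ∧
      (∀ T ∈ Tr H, T.card ≤ 3) ∧
      (Tr H).card ≤ (r * q ^ 3) ^ 3 ∧
      ∀ H' ⊂ H, ∀ a : ℕ, (H \ H').card ≤ a * (a + 1) → r ^ (q - a) ≤ (Tr H').card :=
  Pool.Agent.Helper64.BergeExp.main q r hq hr

end Pool.Agent.Results.MP_bca398_lc.BergeExp
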