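import Mathlib
import Pool.Agent.Helper64.ETHS.Final

set_option autoImplicit false

/-!
# Hypergraph dualization and the Exponential Time Hypothesis: the sharp form

Let `κ³ log κ ≈ n`.  The `n` variables of a 3CNF are cut into `κ²` groups of `κ log κ` variables; the vertices of the
hypergraph are the satisfying assignments of triples of groups, the edges are indexed by a triple and a table of `κ²` hash
values (`Helper50.ETH`, `Helper16.ETH`, `Helper25.ETH`, `Helper85.ETH`).  Its minimal transversals are sets with at most `2 κ`
elements and one larger set for each satisfying assignment, so that `log N = O(κ² log κ)` without the large ones, and the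
assumed machine, stopped after `T(N)` steps, decides whether the formula is satisfiable: the time bound is used only if there
is no large transversal, and then `κ ≤ √(log N / log log N)` and `n ^ (2 κ) ≤ N ^ 2` (`Helper64.ETHS`).  The stopping time is kept in the
state of the simulation, so that the overhead exponent does not depend on it (`Helper64.ETHT`); the arithmetic is in
`Helper58.ETHT.Arith`.
-/

namespace Pool.Agent.Results.MP_bca398_lc.EthTight

/-- **Sharp hardness of hypergraph dualization.**
Let `β` be a rational number, `2/3 < β ≤ 1`, and let `g : ℕ → ℕ` satisfy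
`g(N) = o((log N)^(3β/2 - 1) / (log log N)^(β/2))` (for `β = 1`: `g(N) = o(√(log N / log log N))`; natural logarithms, but
the condition does not depend on the base).
SUPPOSE that there is a Turing machine such that for every hypergraph `E` on `n` vertices (a list of subsets of `Fin n`) the
machine, started with the code of `E`, writes every minimal transversal of `E` exactly once and halts; and that it halts after
at most `N ^ g N` steps, where `N` is the input length plus the output length plus 2, if every minimal transversal of `E` has
at most `k` elements for some `k ≤ 2 √(log N / log log N)` with `n ^ k ≤ N ^ 2`.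
THEN for every real `δ > 0` there are a Turing machine and a constant `C` such that for every 3CNF formula `φ` with `n`
variables (a list of clauses `Fin n → Option Bool`, each with at most three entries different from `none`) the machine,
started with the code of `φ`, writes `some true` if `φ` is satisfiable and `some false` if not, and halts after at most
`(n + |φ| + 2) ^ C * 2 ^ ⌊δ n ^ β⌋` steps. -/
theorem result (β : ℚ) (hβ0 : 2 / 3 < β) (hβ1 : β ≤ 1) (g : ℕ → ℕ)
    (hg : ∀ ε : ℝ, 0 < ε → ∀ᶠ N : ℕ in Filter.atTop, (g N : ℝ) ≤
      ε * (Real.log N ^ (3 * (β : ℝ) / 2 - 1) / Real.log (Real.log N) ^ ((β : ℝ) / 2)))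
    (h : ∃ tm : Turing.FinTM2, ∃ eIn : tm.Γ tm.k₀ ≃ Option Bool,
      ∃ eOut : tm.Γ tm.k₁ ≃ Option Bool,
        ∀ n : ℕ, ∀ E : List (Finset (Fin n)),
          ∃ L : List (Finset (Fin n)),
            L.Nodup ∧
            (∀ T : Finset (Fin n),
              T ∈ L ↔ Minimal (fun S : Finset (Fin n) => ∀ e ∈ E, (S ∩ e).Nonempty) T) ∧
            ∃ t : ℕ,
              Nonempty (Turing.EvalsToInTime tm.step
                (Turing.initList tm
                  (List.map (fun b : Option Bool => eIn.symm b)
                    (List.replicate n (some true) ++ [none] ++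
                      (E.map (fun T : Finset (Fin n) =>
                        List.ofFn (fun i : Fin n => some (decide (i ∈ T))) ++ [none])).flatten)))
                (some (Turing.haltList tm
                  (List.map (fun b : Option Bool => eOut.symm b)
                    (L.map (fun T : Finset (Fin n) =>
                      List.ofFn (fun i : Fin n => some (decide (i ∈ T))) ++ [none])).flatten)))
                t) ∧
              ∀ N : ℕ,
                N = (List.replicate n (some true) ++ [none] ++
                      (E.map (fun T : Finset (Fin n) =>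
                        List.ofFn (fun i : Fin n => some (decide (i ∈ T))) ++ [none])).flatten).length +
                    (L.map (fun T : Finset (Fin n) =>
                      List.ofFn (fun i : Fin n => some (decide (i ∈ T))) ++ [none])).flatten.length + 2 →
                ∀ k : ℕ, (∀ T ∈ L, T.card ≤ k) →
                  (k : ℝ) ≤ 2 * √(Real.log N / Real.log (Real.log N)) → n ^ k ≤ N ^ 2 →
                  t ≤ N ^ g N)
    (δ : ℝ) (hδ : 0 < δ) :
    ∃ tm : Turing.FinTM2, ∃ eIn : tm.Γ tm.k₀ ≃ Option Bool, ∃ eOut : tm.Γ tm.k₁ ≃ Option Bool,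
      ∃ C : ℕ, ∀ (n : ℕ) (φ : List (Fin n → Option Bool)),
        (∀ c ∈ φ, (Finset.univ.filter (fun x : Fin n => c x ≠ none)).card ≤ 3) →
        Nonempty (Turing.EvalsToInTime tm.step
          (Turing.initList tm
            (List.map (fun b : Option Bool => eIn.symm b)
              (List.replicate n (some true) ++ [none] ++
                (φ.map (fun c : Fin n → Option Bool => some true :: List.ofFn c)).flatten)))
          (some (Turing.haltList tm
            (List.map (fun b : Option Bool => eOut.symm b)
              [some (decide (∃ a : Fin n → Bool, ∀ c ∈ φ, ∃ x : Fin n, c x = some (a x)))])))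
          ((n + φ.length + 2) ^ C * 2 ^ ⌊δ * (n : ℝ) ^ (β : ℝ)⌋₊)) := by
  obtain ⟨tm, eIn, eOut, hD⟩ := h
  have hb : 0 < β.den := β.den_pos
  have hnum : 0 < β.num := Rat.num_pos.2 (lt_trans (by norm_num) hβ0)
  obtain ⟨a, ha⟩ : ∃ a : ℕ, β.num = (a : ℤ) := ⟨β.num.toNat, (Int.toNat_of_nonneg hnum.le).symm⟩
  have hβq : β = (a : ℚ) / β.den := by
    have h1 := Rat.num_div_den β
    rw [ha, Int.cast_natCast] at h1
    exact h1.symm
  have hβr : (β : ℝ) = (a : ℝ) / β.den := by
    have h1 : ((β : ℚ) : ℝ) = (((a : ℚ) / β.den : ℚ) : ℝ) := by rw [← hβq]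
    rw [h1]
    push_cast
    rfl
  have hbq : (0 : ℚ) < β.den := by exact_mod_cast hb
  have h1 : 2 * β.den < 3 * a := by
    rw [hβq, div_lt_div_iff₀ (by norm_num) hbq] at hβ0
    have h2 : 2 * β.den < a * 3 := by exact_mod_cast hβ0
    omega
  have h2 : a ≤ β.den := by
    rw [hβq, div_le_one hbq] at hβ1
    exact_mod_cast hβ1
  rw [hβr] at hg ⊢
  obtain ⟨tm', eIn', eOut', C, hC⟩ := Pool.Agent.Helper64.ETHS.eth_small a β.den hb h1 h2 g
    (by
      intro ε hε
      obtain ⟨N0, hN0⟩ := Filter.eventually_atTop.1 (hg ε hε)
      exact ⟨N0, fun N hN => hN0 N hN⟩)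
    (by
      intro n E
      obtain ⟨L, h3, h4, t, h5, h6⟩ := hD n E
      exact ⟨L, h3, h4, t, h5, fun k h7 h8 => h6 _ rfl k h7 h8.1 h8.2⟩) δ hδ
  refine ⟨tm', eIn', eOut', C, fun n φ hφ => ?_⟩
  have h3 := hC n φ hφ
  have h4 : Pool.Agent.Helper36.PT.dec (Pool.Agent.Helper50.ETH.Sat φ) =
      decide (∃ a : Fin n → Bool, ∀ c ∈ φ, ∃ x : Fin n, c x = some (a x)) := by
    rw [Bool.eq_iff_iff, Pool.Agent.Helper36.PT.dec_eq_true, decide_eq_true_iff]
    rfl
  rw [h4] at h3
  exact h3

end Pool.Agent.Results.MP_bca398_lc.EthTight
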