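import Mathlib
import Pool.Agent.Helper64.FreeDefs
import Pool.Agent.Helper24.FKfix

set_option autoImplicit false

namespace Pool.Agent.Results.MP_bca398_lc.FreeFK

open Pool.Agent.Helper64.Free

/-- **No recursion of Fredman-Khachiyan type decides duality in polynomial time, whatever the
choices of the variables and of the decompositions.**
For every `K` there are mutually dual irredundant monotone DNFs `F`, `G`, with
`N = |F| + |G| ≥ K`, and numbers `s`, `r` with `s < min (|F|, |G|)`, `r ≥ K`,
`r ≥ (log₂ N) ^ (1 / 16)` and `s ≥ N ^ (1 / 16000)`, such that every recursion which decomposes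
pairs along arbitrarily chosen variables in any of the ways used by Fredman and Khachiyan (two-way
split, or one of the two expansions), and which may stop for free at every pair `(F', G')` with
`min (|F'|, |G'|) ≤ s`, makes at least `N ^ r` calls on `(F, G)`. -/
theorem result (K : ℕ) : ∃ (V : Type) (_ : Fintype V) (_ : DecidableEq V)
    (F G : Finset (Finset V)) (s r : ℕ), IsDualPair F G ∧ K ≤ F.card + G.card ∧
      s < F.card ∧ s < G.card ∧ K ≤ r ∧
      Nat.log 2 (F.card + G.card) ≤ r ^ 16 ∧ F.card + G.card ≤ s ^ 16000 ∧
      (∃ k, Run s F G k) ∧ ∀ k, Run s F G k → (F.card + G.card) ^ r ≤ k :=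
  free_lower_strong K

end Pool.Agent.Results.MP_bca398_lc.FreeFK
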