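import Mathlib
import Pool.Agent.Helper33.TCM.Final2

set_option autoImplicit false

namespace Pool.Agent.Results.MP_bca398_lc.SqrtLog

/-- **Dualization of all hypergraphs in time `N ^ O(sqrt (log N / log log N))`; in output-polynomial
time for edges and transversals with `O(log N)` vertices and for bounded VC-dimension.**
There are one Turing machine and a constant `c` such that for every hypergraph `E` on `n` vertices
(a list of subsets of `Fin n`) the machine, started with the code of `E`, writes every minimal
transversal of `E` exactly once (the list `L`) and halts after at most `N ^ (c * (1 + k))` steps, where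
`N` is the input length plus the output length plus 2 and `k` is the smallest of the numbers:
VC-dimension of `E`, VC-dimension of `L`, `⌊log2 (r / ⌊log2 N⌋)⌋`, `r` the largest size of a member of
`E` or of `L`, and `⌊sqrt (l / (⌊log2 l⌋ + 1))⌋`, `l = ⌊log2 N⌋`. The machine is told nothing about
`E`. -/
theorem result :
    ∃ tm : Turing.FinTM2, ∃ eIn : tm.Γ tm.k₀ ≃ Option Bool, ∃ eOut : tm.Γ tm.k₁ ≃ Option Bool,
      ∃ c : ℕ,
        ∀ n : ℕ, ∀ E : List (Finset (Fin n)),
          ∃ L : List (Finset (Fin n)),
            L.Nodup ∧
            (∀ T : Finset (Fin n),
              T ∈ L ↔ Minimal (fun S : Finset (Fin n) => ∀ e ∈ E, (S ∩ e).Nonempty) T) ∧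
            ∀ N : ℕ,
              N = (List.replicate n (some true) ++ [none] ++
                    (E.map (fun T : Finset (Fin n) =>
                      List.ofFn (fun i : Fin n => some (decide (i ∈ T))) ++ [none])).flatten).length +
                  (L.map (fun T : Finset (Fin n) =>
                    List.ofFn (fun i : Fin n => some (decide (i ∈ T))) ++ [none])).flatten.length + 2 →
              Nonempty (Turing.EvalsToInTime tm.step
                (Turing.initList tm
                  (List.map (fun b : Option Bool => eIn.symm b)
                    (List.replicate n (some true) ++ [none] ++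
                      (E.map (fun T : Finset (Fin n) =>
                        List.ofFn (fun i : Fin n => some (decide (i ∈ T))) ++ [none])).flatten)))
                (some (Turing.haltList tm
                  (List.map (fun b : Option Bool => eOut.symm b)
                    (L.map (fun T : Finset (Fin n) =>
                      List.ofFn (fun i : Fin n => some (decide (i ∈ T))) ++ [none])).flatten)))
                (N ^ (c * (1 + min (min E.toFinset.vcDim L.toFinset.vcDim)
                  (min (Nat.log 2 ((E ++ L).toFinset.sup Finset.card / Nat.log 2 N))
                    (Nat.sqrt (Nat.log 2 N / (Nat.log 2 (Nat.log 2 N) + 1)))))))) := by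
  obtain ⟨tm, eIn, eOut, c, h⟩ := Pool.Agent.Helper33.TCM.finalG
  refine ⟨tm, eIn, eOut, c, fun n E => ?_⟩
  obtain ⟨L, h1, h2, h3⟩ := h n E
  refine ⟨L, h1, h2, ?_⟩
  rintro N rfl
  exact h3

end Pool.Agent.Results.MP_bca398_lc.SqrtLog
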